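import Mathlib
import Pool.Agent.H20.CycBlk

namespace Pool.Agent.Results.MP_f6f917_al.Counter

open Pool.Agent.H20.CycBlk

theorem result : ∃ G : Subgroup (Equiv.Perm ℕ), Finitary G ∧ Transitive G ∧
    ∃ P : Sylow 2 G, Transitive ((P : Subgroup G).map G.subtype) ∧
      ∀ H : Subgroup (Equiv.Perm ℕ), H ≤ (P : Subgroup G).map G.subtype → Transitive H →
        ∃ h ∈ H, ∃ x, ¬ IsBlock H {y | h.SameCycle x y} :=
  main

end Pool.Agent.Results.MP_f6f917_al.Counter
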